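import Pool.Agent.H62.CYC.Defs

/-!
# Project CYC: the half twist in the block, a complex matrix
-/

set_option autoImplicit false

namespace Pool.Agent.H58.CYC

open Finset Matrix Polynomial
open Pool.Agent.H62.TV (sh sh_ne sh_norm)
open Pool.Agent.H62.TB
open Pool.Agent.H62.CYC
open Pool.Agent.Y482.CY (Nz)
open scoped Real

lemma sh_zpow (M : ℕ) (n : ℤ) : sh M ^ n =
    (Real.cos (π * n / (2 * M + 1)) : ℂ) + (Real.sin (π * n / (2 * M + 1)) : ℂ) * Complex.I := by
  unfold sh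
  rw [← Complex.exp_int_mul, Complex.ofReal_cos, Complex.ofReal_sin, ← Complex.exp_mul_I]
  congr 1
  push_cast
  ring

lemma sh_dif (M : ℕ) (n : ℤ) : sh M ^ n - sh M ^ (-n) =
    2 * (Real.sin (π * n / (2 * M + 1)) : ℂ) * Complex.I := by
  rw [sh_zpow, sh_zpow]
  have h : π * ((-n : ℤ) : ℝ) / (2 * M + 1) = -(π * n / (2 * M + 1)) := by
    push_cast
    ring
  rw [h, Real.cos_neg, Real.sin_neg]
  push_cast
  ring

lemma sh_sum (M : ℕ) (n : ℤ) : sh M ^ n + sh M ^ (-n) =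
    2 * (Real.cos (π * n / (2 * M + 1)) : ℂ) := by
  rw [sh_zpow, sh_zpow]
  have h : π * ((-n : ℤ) : ℝ) / (2 * M + 1) = -(π * n / (2 * M + 1)) := by
    push_cast
    ring
  rw [h, Real.cos_neg, Real.sin_neg]
  push_cast
  ring

lemma bA_sg (M : ℕ) (n : ℤ) : bA (sh M) n = (sg M n : ℂ) * Complex.I := by
  unfold bA sg
  rw [sh_dif]
  have h : π * ((2 * n : ℤ) : ℝ) / (2 * M + 1) = 2 * π * (n : ℝ) / (2 * M + 1) := by
    push_cast
    ring
  rw [h]
  push_cast
  ring

lemma ev_lm (M a : ℕ) : ev (sh M) a = (lm M a : ℂ) := by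
  have h0 := sh_sum M (2 * (a : ℤ) + 2)
  have h1 : sh M ^ (2 * (a : ℤ) + 2) = sh M ^ (2 * a + 2) := by
    rw [← zpow_natCast]
    push_cast
    rfl
  rw [_root_.zpow_neg, h1] at h0
  unfold ev lm
  have h : π * ((2 * (a : ℤ) + 2 : ℤ) : ℝ) / (2 * M + 1) = 2 * π * ((a : ℝ) + 1) / (2 * M + 1) := by
    push_cast
    ring
  rw [h] at h0
  push_cast at h0 ⊢
  linear_combination -h0

lemma toC_bR (M c K : ℕ) : toC (bR M c K) = diagonal fun i : Fin (K + 1) => ev (sh M) (c + i) := by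
  ext i j
  unfold toC bR
  rw [Matrix.map_apply]
  by_cases h : i = j
  · subst h
    rw [Matrix.diagonal_apply_eq, Matrix.diagonal_apply_eq, ev_lm]
  · rw [Matrix.diagonal_apply_ne _ h, Matrix.diagonal_apply_ne _ h, Complex.ofReal_zero]

lemma toC_aR (M c K : ℕ) : toC (aR M c K) = crv (K + 1) c (sh M) := by
  ext i j
  unfold toC aR crv
  rw [Matrix.map_apply]
  have hi := i.2
  have hj := j.2
  by_cases h1 : (i : ℕ) = j + 1
  · rw [if_pos h1, if_pos h1, Complex.ofReal_one]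
  · rw [if_neg h1, if_neg h1]
    by_cases h2 : (i : ℕ) + 1 = j
    · rw [if_pos h2, if_pos h2, bA_sg, bA_sg, bA_sg, bA_sg]
      unfold be
      have hI := Complex.I_ne_zero
      push_cast
      have e1 : (2 * (c : ℝ) + 1 + (j : ℕ)) = 2 * (c : ℝ) + (j : ℕ) + 1 := by ring
      rw [e1, mul_mul_mul_comm, mul_mul_mul_comm ((sg M _ : ℝ) : ℂ) Complex.I,
        mul_div_mul_right _ _ (mul_ne_zero hI hI)]
    · rw [if_neg h2, if_neg h2]
      by_cases h3 : (i : ℕ) = j ∧ (i : ℕ) = K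
      · rw [if_pos h3, if_pos ⟨h3.1, by omega⟩]
        have e1 := sh_dif M (2 * (c : ℤ) + 1)
        have e2 := sh_dif M 1
        have e3 : sh M ^ (2 * (c : ℤ) + 1) = sh M ^ (2 * c + 1) := by
          rw [← zpow_natCast]
          push_cast
          rfl
        rw [_root_.zpow_neg, e3] at e1
        rw [_root_.zpow_neg, _root_.zpow_one] at e2
        rw [e1, e2]
        have e4 : π * ((2 * (c : ℤ) + 1 : ℤ) : ℝ) / (2 * M + 1) = π * (2 * c + 1) / (2 * M + 1) := by
          push_cast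
          ring
        have e5 : π * ((1 : ℤ) : ℝ) / (2 * M + 1) = π / (2 * M + 1) := by
          push_cast
          ring
        rw [e4, e5, mul_div_mul_right _ _ Complex.I_ne_zero, mul_div_mul_left _ _ two_ne_zero]
        push_cast
        rfl
      · rw [if_neg h3, if_neg (fun h => h3 ⟨h.1, by omega⟩), Complex.ofReal_zero]

lemma aeval_diag {n : ℕ} (f : Fin n → ℂ) (P : ℂ[X]) :
    aeval (diagonal f) P = diagonal fun i => P.eval (f i) := by
  have h1 : ∀ i : ℕ, (diagonal f) ^ i = diagonal fun j => f j ^ i := by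
    intro i
    rw [Matrix.diagonal_pow]
    rfl
  rw [aeval_eq_sum_range]
  ext a b
  rw [Matrix.sum_apply]
  by_cases h : a = b
  · subst h
    rw [Matrix.diagonal_apply_eq, Polynomial.eval_eq_sum_range]
    exact Finset.sum_congr rfl fun i _ => by
      rw [Matrix.smul_apply, h1, Matrix.diagonal_apply_eq, smul_eq_mul]
  · rw [Matrix.diagonal_apply_ne _ h]
    exact Finset.sum_eq_zero fun i _ => by
      rw [Matrix.smul_apply, h1, Matrix.diagonal_apply_ne _ h, smul_zero]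

lemma PI_ev {M K c : ℕ} (hc : c + (K + 1) = M) (i : Fin (K + 1)) :
    (PI M K c).eval (ev (sh M) (c + i)) = mu (sh M) (c + i) := by
  have hi := i.2
  have h := PI_eval hc (K - i) (by omega)
  have hz : ((K - (i : ℕ) : ℕ) : ℤ) = (K : ℤ) - (i : ℕ) := by omega
  rw [hz] at h
  rw [ev_eq hc (by omega), h, mu_eq hc (by omega)]

lemma mu_ne (M a : ℕ) : mu (sh M) a ≠ 0 := by
  unfold mu
  exact mul_ne_zero (pow_ne_zero _ (by norm_num)) (pow_ne_zero _ (sh_ne M))

lemma Lm_Sm {v : ℂ} {K : ℕ} (hv : v ≠ 0) (hN : Nz v (2 * K + 2)) : Lm v K * Sm v K =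
    Sm v K * diagonal fun i : Fin (K + 1) => la v ((K : ℤ) - (i : ℕ)) := by
  unfold Sm
  rw [← Matrix.mul_assoc, Lm_Wm hv hN, Matrix.mul_assoc, Matrix.mul_assoc,
    Matrix.diagonal_mul_diagonal, Matrix.diagonal_mul_diagonal]
  congr 2
  funext i
  ring

/-- Task FE. -/
theorem fe : S_HZ → S_FE := by
  intro hz M c K hc
  have hN := sh_Nz (M := M) (K := K) (by omega)
  have hK : Nz (sh M) K := fun l h0 hl => hN l h0 (by omega)
  have hS := Sm_unit (sh_ne M) hN (sh_br2 (M := M) (K := K) (by omega))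
  obtain ⟨Fz, f1, f2, f3, ξ, x1, x2⟩ := hz (sh M) (sh_norm M) (sh_ne M) K hK
  have f4 : Fz * Um (sh M) K = Lm (sh M) K * Fz := by
    calc Fz * Um (sh M) K = Fz * (Um (sh M) K * (Fz * Fz)) := by rw [f1, Matrix.mul_one]
      _ = Fz * (Um (sh M) K * Fz) * Fz := by simp only [Matrix.mul_assoc]
      _ = Fz * (Fz * Lm (sh M) K) * Fz := by rw [f3]
      _ = Lm (sh M) K * Fz := by rw [← Matrix.mul_assoc, f1, Matrix.one_mul]
  set S := Sm (sh M) K with hSdef
  have s1 : S⁻¹ * S = 1 := Matrix.nonsing_inv_mul _ hS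
  have s2 : S * S⁻¹ = 1 := Matrix.mul_nonsing_inv _ hS
  have a1 : Um (sh M) K * S = S * toC (aR M c K) := by
    rw [toC_aR, crv_eq hc]
    exact Um_Sm (sh_ne M) hN
  have b1 : Lm (sh M) K * S = S * toC (bR M c K) := by
    rw [toC_bR]
    have h1 := Lm_Sm (sh_ne M) hN
    rw [h1]
    congr 2
    funext i
    have hi := i.2
    exact (ev_eq hc (by omega)).symm
  have b2 : S⁻¹ * Lm (sh M) K = toC (bR M c K) * S⁻¹ := by
    calc S⁻¹ * Lm (sh M) K = S⁻¹ * (Lm (sh M) K * S) * S⁻¹ := by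
          rw [Matrix.mul_assoc, Matrix.mul_assoc, s2, Matrix.mul_one]
      _ = S⁻¹ * (S * toC (bR M c K)) * S⁻¹ := by rw [b1]
      _ = toC (bR M c K) * S⁻¹ := by rw [← Matrix.mul_assoc, s1, Matrix.one_mul]
  obtain ⟨Fe, hFe⟩ : ∃ Fe, Fe = S⁻¹ * Fz * S := ⟨_, rfl⟩
  have g0 : S * Fe = Fz * S := by
    rw [hFe, Matrix.mul_assoc, ← Matrix.mul_assoc S, s2, Matrix.one_mul]
  have g1 : Fe * Fe = 1 := by
    calc Fe * Fe = S⁻¹ * Fz * (S * S⁻¹) * Fz * S := by
          rw [hFe]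
          simp only [Matrix.mul_assoc]
      _ = S⁻¹ * (Fz * Fz) * S := by
          rw [s2, Matrix.mul_one, Matrix.mul_assoc S⁻¹ Fz Fz]
      _ = 1 := by rw [f1, Matrix.mul_one, s1]
  have g2 : Fe.trace = Fz.trace := by
    rw [hFe, Matrix.trace_mul_comm, ← Matrix.mul_assoc, s2, Matrix.one_mul]
  have g3 : Fe * toC (aR M c K) = toC (bR M c K) * Fe := by
    calc Fe * toC (aR M c K) = S⁻¹ * Fz * (S * toC (aR M c K)) := by
          rw [hFe]
          simp only [Matrix.mul_assoc]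
      _ = S⁻¹ * (Fz * Um (sh M) K) * S := by
          rw [← a1]
          simp only [Matrix.mul_assoc]
      _ = S⁻¹ * Lm (sh M) K * (Fz * S) := by
          rw [f4]
          simp only [Matrix.mul_assoc]
      _ = toC (bR M c K) * Fe := by
          rw [b2, hFe]
          simp only [Matrix.mul_assoc]
  have g4 : toC (aR M c K) * Fe = Fe * toC (bR M c K) := by
    calc toC (aR M c K) * Fe = Fe * Fe * toC (aR M c K) * Fe := by rw [g1, Matrix.one_mul]
      _ = Fe * (Fe * toC (aR M c K)) * Fe := by simp only [Matrix.mul_assoc]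
      _ = Fe * toC (bR M c K) * (Fe * Fe) := by
          rw [g3]
          simp only [Matrix.mul_assoc]
      _ = Fe * toC (bR M c K) := by rw [g1, Matrix.mul_one]
  have hmer : aeval (toC (bR M c K)) (PI M K c) = mer (K + 1) c (sh M) := by
    rw [toC_bR, aeval_diag]
    unfold mer
    congr 1
    funext i
    exact PI_ev hc i
  have hcor : aeval (toC (aR M c K)) (PI M K c) = cor (K + 1) c (sh M) := by
    rw [toC_aR]
    rfl
  have g5 : cor (K + 1) c (sh M) = Fe * mer (K + 1) c (sh M) * Fe := by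
    have h1 := aeval_conj g4 (PI M K c)
    rw [hmer, hcor] at h1
    calc cor (K + 1) c (sh M) = cor (K + 1) c (sh M) * Fe * Fe := by
          rw [Matrix.mul_assoc, g1, Matrix.mul_one]
      _ = _ := by rw [h1]
  refine ⟨Fe, g1, by rw [g2]; exact f2, g3, g5, ?_⟩
  -- the braid relation
  have ht := tp_ne (v := sh M) (K := K) (sh_ne M)
  have ht1 : ‖tp (sh M) K‖ = 1 := by
    unfold tp
    rw [norm_pow, sh_norm, one_pow]
  have hξ : ξ ≠ 0 := by
    intro h
    rw [h, norm_zero] at x1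
    exact zero_ne_one x1
  have hmu : IsUnit (mer (K + 1) c (sh M)).det := diag_unit fun i => mu_ne M (c + i)
  have m1 := mer_Sm hc
  have c1 := cor_Sm hc
  rw [← hSdef] at m1 c1
  have u1 := T1_unit (sh_ne M) hK
  have u2 := T2_unit (sh_ne M) hK
  have k1 : T1 (sh M) K * (T2 (sh M) K)⁻¹ * T1 (sh M) K = (tp (sh M) K ^ K * ξ⁻¹) • Fz := by
    have h1 : (T1 (sh M) K)⁻¹ * T2 (sh M) K * (T1 (sh M) K)⁻¹ =
        ((tp (sh M) K ^ K)⁻¹ * ξ) • Fz := by
      rw [Q2 (sh_ne M) hK, Q12 (sh_ne M) hK, x2, smul_smul]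
    have h2 : ((T1 (sh M) K)⁻¹ * T2 (sh M) K * (T1 (sh M) K)⁻¹) *
        (T1 (sh M) K * (T2 (sh M) K)⁻¹ * T1 (sh M) K) = 1 := by
      calc ((T1 (sh M) K)⁻¹ * T2 (sh M) K * (T1 (sh M) K)⁻¹) *
            (T1 (sh M) K * (T2 (sh M) K)⁻¹ * T1 (sh M) K)
          = (T1 (sh M) K)⁻¹ * (T2 (sh M) K * ((T1 (sh M) K)⁻¹ * T1 (sh M) K) *
            (T2 (sh M) K)⁻¹) * T1 (sh M) K := by simp only [Matrix.mul_assoc]
        _ = 1 := by
          rw [Matrix.nonsing_inv_mul _ u1, Matrix.mul_one, Matrix.mul_nonsing_inv _ u2,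
            Matrix.mul_one, Matrix.nonsing_inv_mul _ u1]
    rw [h1] at h2
    have hp := pow_ne_zero K ht
    calc T1 (sh M) K * (T2 (sh M) K)⁻¹ * T1 (sh M) K
        = (tp (sh M) K ^ K * ξ⁻¹) • (Fz * ((((tp (sh M) K ^ K)⁻¹ * ξ) • Fz) *
          (T1 (sh M) K * (T2 (sh M) K)⁻¹ * T1 (sh M) K))) := by
          rw [Matrix.smul_mul, Matrix.mul_smul, ← Matrix.mul_assoc Fz Fz, f1, Matrix.one_mul,
            smul_smul]
          have h3 : tp (sh M) K ^ K * ξ⁻¹ * ((tp (sh M) K ^ K)⁻¹ * ξ) = 1 := by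
            field_simp
          rw [h3, one_smul]
      _ = (tp (sh M) K ^ K * ξ⁻¹) • Fz := by rw [h2, Matrix.mul_one]
  have k2 : S * (mer (K + 1) c (sh M) * cor (K + 1) c (sh M) * mer (K + 1) c (sh M)) =
      S * ((xi M * xi M * xi M * tp (sh M) K ^ K * (tp (sh M) K ^ K * ξ⁻¹)) • Fe) := by
    calc S * (mer (K + 1) c (sh M) * cor (K + 1) c (sh M) * mer (K + 1) c (sh M))
        = (S * mer (K + 1) c (sh M)) * cor (K + 1) c (sh M) * mer (K + 1) c (sh M) := by
          simp only [Matrix.mul_assoc]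
      _ = (xi M • T1 (sh M) K) * (S * cor (K + 1) c (sh M)) * mer (K + 1) c (sh M) := by
          rw [m1]
          simp only [Matrix.mul_assoc]
      _ = (xi M • T1 (sh M) K) * (xi M • (tp (sh M) K ^ K • (T2 (sh M) K)⁻¹)) *
          (S * mer (K + 1) c (sh M)) := by
          rw [c1]
          simp only [Matrix.mul_assoc]
      _ = (xi M * xi M * xi M * tp (sh M) K ^ K) •
          ((T1 (sh M) K * (T2 (sh M) K)⁻¹ * T1 (sh M) K) * S) := by
          rw [m1]
          simp only [Matrix.smul_mul, Matrix.mul_smul, smul_smul, Matrix.mul_assoc]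
          congr 1
          ring
      _ = _ := by
          rw [k1, Matrix.smul_mul, ← g0, smul_smul, Matrix.mul_smul]
  have k3 : mer (K + 1) c (sh M) * cor (K + 1) c (sh M) * mer (K + 1) c (sh M) =
      (xi M * xi M * xi M * tp (sh M) K ^ K * (tp (sh M) K ^ K * ξ⁻¹)) • Fe := by
    have h1 := congrArg (fun X => S⁻¹ * X) k2
    simp only [← Matrix.mul_assoc S⁻¹, s1, Matrix.one_mul] at h1
    exact h1
  refine ⟨xi M * xi M * xi M * tp (sh M) K ^ K * (tp (sh M) K ^ K * ξ⁻¹), ?_, ?_⟩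
  · simp only [norm_mul, norm_inv, norm_pow, ht1, x1, xi_norm, one_pow, inv_one, mul_one]
  · rw [← g5]
    calc cor (K + 1) c (sh M) = (mer (K + 1) c (sh M))⁻¹ *
          (mer (K + 1) c (sh M) * cor (K + 1) c (sh M) * mer (K + 1) c (sh M)) *
          (mer (K + 1) c (sh M))⁻¹ := by
          simp only [Matrix.mul_assoc, Matrix.mul_nonsing_inv _ hmu, Matrix.mul_one]
          rw [← Matrix.mul_assoc, Matrix.nonsing_inv_mul _ hmu, Matrix.one_mul]
      _ = _ := by
          rw [k3, Matrix.mul_smul, Matrix.smul_mul]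

end Pool.Agent.H58.CYC
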